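import Mathlib

/-!
# Counting in finitely generated abelian groups with a height
-/

set_option autoImplicit false

namespace Pool.Agent.H64.IP

open Finset

/-- the coordinates modulo `n` -/
theorem classes (G : Type) [AddCommGroup G] (hG : AddGroup.FG G) (n : ℕ) :
    ∃ c : G → (Fin (Module.finrank ℤ G) → ZMod n), ∀ g g' : G, c g = c g' →
      ∃ u t : G, IsOfFinAddOrder t ∧ g = g' + n • u + t := by
  classical
  have : Module.Finite ℤ G := Module.Finite.iff_addGroup_fg.mpr hG
  let M := G ⧸ Submodule.torsion ℤ G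
  have hr : Module.finrank ℤ M = Module.finrank ℤ G :=
    finrank_quotient_eq_of_le_torsion le_rfl
  have : Module.Finite ℤ M := inferInstance
  have : Module.Free ℤ M := inferInstance
  let b : Module.Basis (Fin (Module.finrank ℤ M)) ℤ M := Module.finBasis ℤ M
  let b' : Module.Basis (Fin (Module.finrank ℤ G)) ℤ M := b.reindex (finCongr hr)
  refine ⟨fun g i => ((b'.repr ((Submodule.torsion ℤ G).mkQ g) i : ℤ) : ZMod n), ?_⟩
  intro g g' hgg
  have h1 : ∀ i, ∃ k : ℤ, b'.repr ((Submodule.torsion ℤ G).mkQ g) i =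
      b'.repr ((Submodule.torsion ℤ G).mkQ g') i + n * k := by
    intro i
    have h2 := congrFun hgg i
    rw [ZMod.intCast_eq_intCast_iff, Int.modEq_iff_dvd] at h2
    obtain ⟨k, hk⟩ := h2
    exact ⟨-k, by linarith⟩
  choose k hk using h1
  obtain ⟨u, hu⟩ := (Submodule.torsion ℤ G).mkQ_surjective (b'.equivFun.symm k)
  refine ⟨u, g - g' - n • u, ?_, by abel⟩
  have h3 : (Submodule.torsion ℤ G).mkQ (g - g' - n • u) = 0 := by
    apply b'.repr.injective
    ext i
    have h4 : b'.repr ((Submodule.torsion ℤ G).mkQ u) i = k i := by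
      rw [hu, ← Module.Basis.equivFun_apply, LinearEquiv.apply_symm_apply]
    rw [map_sub, map_sub, map_nsmul, map_sub, map_sub, map_nsmul, map_zero, Finsupp.sub_apply,
      Finsupp.sub_apply, Finsupp.smul_apply, h4, hk i]
    simp
  rw [Submodule.mkQ_apply, Submodule.Quotient.mk_eq_zero, Submodule.mem_torsion_iff] at h3
  obtain ⟨a, ha⟩ := h3
  rw [isOfFinAddOrder_iff_nsmul_eq_zero]
  have ha0 : (a : ℤ) ≠ 0 := nonZeroDivisors.coe_ne_zero a
  refine ⟨(a : ℤ).natAbs, Int.natAbs_pos.2 ha0, ?_⟩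
  have h5 : (a : ℤ) • (g - g' - n • u) = 0 := ha
  rcases Int.natAbs_eq (a : ℤ) with h | h
  · rw [h, natCast_zsmul] at h5
    exact h5
  · rw [h, neg_smul, natCast_zsmul, neg_eq_zero] at h5
    exact h5

/-- counting by classes -/
theorem card_classes (G : Type) [AddCommGroup G] (hG : AddGroup.FG G) (n : ℕ) (hn : 1 ≤ n)
    (M : ℕ) {ι : Type} (s : Finset ι) (pt : ι → G)
    (hs : ∀ s' : Finset ι, s' ⊆ s → (∀ i ∈ s', ∀ j ∈ s', ∃ u t : G, IsOfFinAddOrder t ∧
      pt i = pt j + n • u + t) → s'.card ≤ M) :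
    s.card ≤ M * n ^ Module.finrank ℤ G := by
  classical
  obtain ⟨c, hc⟩ := classes G hG n
  have : NeZero n := ⟨by omega⟩
  refine (card_le_mul_card_image (f := fun i => c (pt i)) s M fun b _ => ?_).trans ?_
  · refine hs _ (filter_subset _ _) fun i hi j hj => hc _ _ ?_
    rw [mem_filter] at hi hj
    rw [hi.2, hj.2]
  · refine Nat.mul_le_mul_left _ ?_
    refine (card_le_univ _).trans ?_
    rw [Fintype.card_fun, ZMod.card, Fintype.card_fin]

section height

variable {G : Type} [AddCommGroup G] {h : G → ℝ} {C : ℝ}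

lemma dbl (h0 : h 0 = 0) (hpar : ∀ P Q : G, |h (P + Q) + h (P - Q) - 2 * (h P + h Q)| ≤ C)
    (P : G) : 4 * h P - C ≤ h (2 • P) := by
  have h1 := hpar P P
  rw [sub_self, h0, abs_le] at h1
  rw [two_nsmul]
  linarith [h1.1]

lemma sub_le (hnn : ∀ P, 0 ≤ h P)
    (hpar : ∀ P Q : G, |h (P + Q) + h (P - Q) - 2 * (h P + h Q)| ≤ C)
    (P Q : G) : h (P - Q) ≤ 2 * h P + 2 * h Q + C := by
  have h1 := hpar P Q
  rw [abs_le] at h1
  have h2 := hnn (P + Q)
  linarith [h1.2]

/-- torsion points have small height -/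
lemma tors_le (h0 : h 0 = 0) (hC : 0 ≤ C)
    (hpar : ∀ P Q : G, |h (P + Q) + h (P - Q) - 2 * (h P + h Q)| ≤ C)
    {t : G} (ht : IsOfFinAddOrder t) : h t ≤ C := by
  by_contra hcon
  push Not at hcon
  have h1 : ∀ i : ℕ, C < h (2 ^ i • t) ∧ h (2 ^ i • t) < h (2 ^ (i + 1) • t) := by
    intro i
    have step : ∀ g : G, C < h g → h g < h (2 • g) := by
      intro g hg
      have := dbl h0 hpar g
      linarith
    have e : ∀ i : ℕ, (2 ^ (i + 1)) • t = 2 • (2 ^ i • t) := by
      intro i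
      rw [← mul_nsmul', pow_succ']
    induction i with
    | zero =>
      refine ⟨by simpa using hcon, ?_⟩
      rw [e]
      apply step
      simpa using hcon
    | succ i ih =>
      have h2 : C < h (2 ^ (i + 1) • t) := ih.1.trans ih.2
      exact ⟨h2, by rw [e (i + 1)]; exact step _ h2⟩
  have hmono : StrictMono (fun i : ℕ => h (2 ^ i • t)) := strictMono_nat_of_lt_succ fun i => (h1 i).2
  have hinj : Function.Injective (fun i : ℕ => 2 ^ i • t) := fun i j hij =>
    hmono.injective (congrArg h hij)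
  have hfin : (AddSubmonoid.multiples t : Set G).Finite := by
    exact ht.finite_multiples
  exact Set.infinite_of_injective_forall_mem hinj
    (fun i => (AddSubmonoid.mem_multiples_iff _ _).2 ⟨2 ^ i, rfl⟩) hfin

lemma grow (h0 : h 0 = 0)
    (hpar : ∀ P Q : G, |h (P + Q) + h (P - Q) - 2 * (h P + h Q)| ≤ C)
    {l : ℝ} (hl : C ≤ l) (hlow : ∀ g : G, ¬ IsOfFinAddOrder g → l ≤ h g) (g : G)
    (hg : ¬ IsOfFinAddOrder g) (j : ℕ) : 3 ^ j * l ≤ h (2 ^ j • g) := by
  induction j with
  | zero => simpa using hlow g hg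
  | succ j ih =>
    have h1 : ¬ IsOfFinAddOrder (2 ^ j • g) := by
      intro h
      apply hg
      rw [isOfFinAddOrder_iff_nsmul_eq_zero] at h ⊢
      obtain ⟨n, hn, hn'⟩ := h
      refine ⟨n * 2 ^ j, by positivity, ?_⟩
      rw [mul_nsmul', hn']
    have h2 := hlow _ h1
    have h3 := dbl h0 hpar (2 ^ j • g)
    have e : (2 ^ (j + 1)) • g = 2 • (2 ^ j • g) := by
      rw [← mul_nsmul', pow_succ']
    rw [e, pow_succ]
    linarith

/-- points of small height -/
theorem small_pts (hG : AddGroup.FG G) (h0 : h 0 = 0) (hnn : ∀ P, 0 ≤ h P) (hC : 0 ≤ C)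
    (hpar : ∀ P Q : G, |h (P + Q) + h (P - Q) - 2 * (h P + h Q)| ≤ C)
    {l R : ℝ} (hl : C ≤ l) (hlow : ∀ g : G, ¬ IsOfFinAddOrder g → l ≤ h g) (j : ℕ)
    (hj : 8 * R + 5 * C < 3 ^ j * l) (T : Finset G) (hT : ∀ g : G, IsOfFinAddOrder g → g ∈ T)
    (s : Finset G) (hs : ∀ g ∈ s, h g ≤ R) :
    s.card ≤ T.card * (2 ^ j) ^ Module.finrank ℤ G := by
  classical
  refine card_classes G hG (2 ^ j) Nat.one_le_two_pow T.card s id fun s' hs' hcl => ?_
  rcases s'.eq_empty_or_nonempty with rfl | ⟨g0, hg0⟩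
  · simp
  refine card_le_card_of_injOn (fun g => g - g0) (fun g hg => hT _ ?_) (fun a _ b _ hab => ?_)
  · obtain ⟨u, t, ht, hu⟩ := hcl g hg g0 hg0
    simp only [id] at hu
    by_cases hut : IsOfFinAddOrder u
    · have e : g - g0 = (2 ^ j) • u + t := by
        rw [hu]
        abel
      show IsOfFinAddOrder (g - g0)
      rw [e]
      exact (hut.nsmul).add ht
    · exfalso
      have h1 := grow h0 hpar hl hlow u hut j
      have e : (2 ^ j) • u = (g - g0) - t := by
        rw [hu]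
        abel
      rw [e] at h1
      have h2 := sub_le hnn hpar (g - g0) t
      have h3 := sub_le hnn hpar g g0
      have h4 := tors_le h0 hC hpar ht
      have h5 := hs g (hs' hg)
      have h6 := hs g0 (hs' hg0)
      linarith
  · simpa using hab

end height

end Pool.Agent.H64.IP
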