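import Mathlib
import Pool.Graph.R_seed8.H437R2.Man.MWWeak

/-!
# The map of the complete 2-descent on cosets of `2 E(K)`
-/

set_option autoImplicit false

namespace Pool.Agent.H64.IP

open WeierstrassCurve Pool.Agent.H437R2.Man.MW

variable {K : Type} [Field K] [CharZero K] [DecidableEq K]

/-- the double of a point -/
lemma double_x {e1 e2 e3 u v x y : K} {hu : (crv e1 e2 e3).toAffine.Nonsingular u v} (hv : v ≠ 0)
    {h : (crv e1 e2 e3).toAffine.Nonsingular x y}
    (hQ : (Affine.Point.some u v hu : Pt e1 e2 e3) + Affine.Point.some u v hu =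
      Affine.Point.some x y h)
    {e : K} (he : (e1 - e) * (e2 - e) * (e3 - e) = 0) :
    x + e = (((u + e) ^ 2 - ((e1 - e) * (e2 - e) + (e1 - e) * (e3 - e) +
      (e2 - e) * (e3 - e))) / (2 * v)) ^ 2 := by
  have hd := xRep_double hu hv
  rw [hQ, Affine.Point.xRep_some] at hd
  have hx : x = (u ^ 4 - 2 * (e1 * e2 + e1 * e3 + e2 * e3) * u ^ 2 - 8 * (e1 * e2 * e3) * u
      - (4 * (e1 + e2 + e3) * (e1 * e2 * e3) - (e1 * e2 + e1 * e3 + e2 * e3) ^ 2)) /
      (4 * v ^ 2) := by
    have := congrFun hd 0
    simpa using this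
  have q := crv_eqn.mp hu.1
  rw [hx]
  have h4 : (4 : K) * v ^ 2 ≠ 0 := mul_ne_zero (by norm_num) (pow_ne_zero _ hv)
  have h2 : (2 * v) ^ 2 = (4 : K) * v ^ 2 := by ring
  rw [div_pow, h2, div_add' _ _ _ h4]
  congr 1
  linear_combination (4 * e) * q - 4 * ((e1 + e2 + e3 - 3 * e) + 2 * (u + e)) * he

lemma double_sq {e1 e2 e3 : K} (Q : Pt e1 e2 e3) {x y : K}
    {h : (crv e1 e2 e3).toAffine.Nonsingular x y} (hQ : Q + Q = Affine.Point.some x y h)
    {e : K} (he : (e1 - e) * (e2 - e) * (e3 - e) = 0) :
    IsSquare (x + e) ∧ (x + e = 0 → IsSquare ((e1 - e) * (e2 - e) + (e1 - e) * (e3 - e) +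
      (e2 - e) * (e3 - e))) := by
  match Q, hQ with
  | 0, hQ =>
    rw [add_zero] at hQ
    exact absurd hQ.symm (Affine.Point.some_ne_zero h)
  | .some u v hu, hQ =>
    by_cases hv : v = 0
    · subst hv
      have hneg : (Affine.Point.some u 0 hu : Pt e1 e2 e3) + Affine.Point.some u 0 hu = 0 := by
        apply Affine.Point.add_self_of_Y_eq
        simp [Affine.negY, crv]
      rw [hneg] at hQ
      exact absurd hQ.symm (Affine.Point.some_ne_zero h)
    · have h1 := double_x hv hQ he
      refine ⟨by rw [h1]; exact IsSquare.sq _, fun h0 => ?_⟩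
      rw [h1] at h0
      have h2 := pow_eq_zero_iff (two_ne_zero) |>.1 h0
      have hv2 : (2 : K) * v ≠ 0 := mul_ne_zero two_ne_zero hv
      rw [div_eq_zero_iff] at h2
      rcases h2 with h2 | h2
      · rw [← sub_eq_zero.1 h2]
        exact IsSquare.sq _
      · exact absurd h2 hv2

/-- the class does not change if the double of a point is added -/
lemma same_class {e1 e2 e3 : K} (Q : Pt e1 e2 e3) {x y x' y' : K}
    {h : (crv e1 e2 e3).toAffine.Nonsingular x y} {h' : (crv e1 e2 e3).toAffine.Nonsingular x' y'}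
    (hQ : (Affine.Point.some x' y' h' : Pt e1 e2 e3) = Affine.Point.some x y h + (Q + Q))
    {e : K} (he : (e1 - e) * (e2 - e) * (e3 - e) = 0) : IsSquare ((x + e) * (x' + e)) := by
  generalize hR : Q + Q = R at hQ
  match R, hR, hQ with
  | 0, hR, hQ =>
    rw [add_zero] at hQ
    have hx : x' = x := by
      have := congrArg (fun P : Pt e1 e2 e3 => P.xRep 0) hQ
      simpa using this
    rw [hx, ← pow_two]
    exact IsSquare.sq _
  | .some a b hab, hR, hQ =>
    obtain ⟨s1, s2⟩ := double_sq Q hR he
    have q1 := crv_eqn.mp h.1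
    have q2 := crv_eqn.mp hab.1
    by_cases hx : x = a
    · subst hx
      have hyy : y = b ∨ y = -b := by
        apply sq_eq_sq_iff_eq_or_eq_neg.mp
        rw [q1, q2]
      rcases hyy with hyy | hyy
      · subst hyy
        have h3 := (double_sq _ hQ.symm he).1
        exact s1.mul h3
      · subst hyy
        have hne : (Affine.Point.some x (-b) h : Pt e1 e2 e3) = -Affine.Point.some x b hab := by
          rw [neg_mk]
        rw [hne, neg_add_cancel] at hQ
        exact absurd hQ (Affine.Point.some_ne_zero h')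
    · have ha := xRep_add h hab hx
      rw [← hQ, Affine.Point.xRep_some] at ha
      have hx' : x' = numr e1 e2 e3 x a (y * b) / (x - a) ^ 2 := by
        have := congrFun ha 0
        simpa using this
      have hxa : x - a ≠ 0 := sub_ne_zero.mpr hx
      have hxa2 : (x - a) ^ 2 ≠ 0 := pow_ne_zero _ hxa
      by_cases h0 : a + e = 0
      · have s3 := s2 h0
        have ha' : a = -e := by linear_combination h0
        subst ha'
        have hb : b = 0 := by
          have : b ^ 2 = 0 := by
            rw [q2]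
            linear_combination he
          exact pow_eq_zero_iff (two_ne_zero) |>.1 this
        subst hb
        have h5 : (x + e) * (x' + e) = (e1 - e) * (e2 - e) + (e1 - e) * (e3 - e) +
            (e2 - e) * (e3 - e) := by
          rw [hx', numr, div_add' _ _ _ hxa2, mul_div_assoc', div_eq_iff hxa2]
          linear_combination (2 * (x + e)) * he
        rw [h5]
        exact s3
      · obtain ⟨r, hr⟩ := s1
        have hr0 : r ≠ 0 := by
          rintro rfl
          exact h0 (by rw [hr]; ring)
        refine ⟨(y * (a + e) - b * (x + e)) / (r * (x - a)), ?_⟩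
        have h6 : r * (x - a) ≠ 0 := mul_ne_zero hr0 hxa
        rw [hx', numr, div_add' _ _ _ hxa2, mul_div_assoc', div_mul_div_comm,
          div_eq_div_iff hxa2 (mul_ne_zero h6 h6)]
        have h7 : r * (x - a) * (r * (x - a)) = (a + e) * (x - a) ^ 2 := by
          rw [hr]
          ring
        rw [h7]
        linear_combination (x - a) ^ 2 * (-(a + e) ^ 2 * q1 - (x + e) ^ 2 * q2 - (x - a) ^ 2 * he)

end Pool.Agent.H64.IP
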