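import Mathlib
import Pool.Graph.R_seed8.H437R2.Man.MWWeak

/-!
# The parallelogram law on all the quadratic twists of a curve, uniformly
-/

set_option autoImplicit false

namespace Pool.Agent.H64.IP

open WeierstrassCurve Height Pool.Agent.H437R2.Man.MW

/-- the height of the abscissa, scaled to the original curve -/
noncomputable def htd (d : ℚ) {e1 e2 e3 : ℚ} (P : Pt e1 e2 e3) : ℝ :=
  logHeight ![P.xRep 0, d * P.xRep 1]

lemma htd_nonneg (d : ℚ) {e1 e2 e3 : ℚ} (P : Pt e1 e2 e3) : 0 ≤ htd d P := logHeight_nonneg _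

lemma htd_zero (d : ℚ) {e1 e2 e3 : ℚ} : htd d (0 : Pt e1 e2 e3) = 0 := by
  rw [htd, Affine.Point.xRep_zero]
  have : (![(![(1 : ℚ), 0] : Fin 2 → ℚ) 0, d * (![(1 : ℚ), 0] : Fin 2 → ℚ) 1] : Fin 2 → ℚ) =
      ![1, 0] := by
    ext i
    fin_cases i <;> simp
  rw [this, logHeight_swap, ← logHeight₁_eq_logHeight, logHeight₁_zero]

lemma scaled_ne (d : ℚ) (hd : d ≠ 0) {e1 e2 e3 : ℚ} (P : Pt e1 e2 e3) :
    (![P.xRep 0, d * P.xRep 1] : Fin 2 → ℚ) ≠ 0 := by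
  intro h
  apply P.xRep_ne_zero
  ext i
  fin_cases i
  · exact congrFun h 0
  · have h1 : d * P.xRep 1 = 0 := congrFun h 1
    exact (mul_eq_zero.1 h1).resolve_left hd

/-- scaled symmetric coordinates -/
def sg (d : ℚ) (v : Fin 3 → ℚ) : Fin 3 → ℚ := ![v 0, d * v 1, d ^ 2 * v 2]

lemma sym2_scaled : ∃ C : ℝ, ∀ (e1 e2 e3 d : ℚ), d ≠ 0 → ∀ P Q : Pt e1 e2 e3,
    |logHeight (sg d (P.sym2x Q)) - (htd d P + htd d Q)| ≤ C := by
  obtain ⟨C, hC⟩ := abs_logHeight_sym2_sub_le ℚ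
  refine ⟨C, fun e1 e2 e3 d hd P Q => ?_⟩
  have := hC (scaled_ne d hd P) (scaled_ne d hd Q)
  have e : sg d (P.sym2x Q) = ![P.xRep 0 * Q.xRep 0, P.xRep 0 * (d * Q.xRep 1) +
      (d * P.xRep 1) * Q.xRep 0, (d * P.xRep 1) * (d * Q.xRep 1)] := by
    unfold sg Affine.Point.sym2x
    ext i
    fin_cases i
    · simp
    · simp
      ring
    · simp
      ring
  rw [e]
  exact this

lemma addSub_scaled (e1 e2 e3 d : ℚ) (v : Fin 3 → ℚ) :
    (fun i ↦ (addSubMap (crv e1 e2 e3) i).eval (sg d v)) =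
      sg d (fun i ↦ (addSubMap (crv (d * e1) (d * e2) (d * e3)) i).eval v) := by
  have hv : v = ![v 0, v 1, v 2] := by
    ext i
    fin_cases i <;> rfl
  rw [hv]
  have h1 : sg d ![v 0, v 1, v 2] = ![v 0, d * v 1, d ^ 2 * v 2] := by
    unfold sg
    ext i
    fin_cases i <;> rfl
  rw [h1, eval_addSub, eval_addSub]
  unfold sg
  ext i
  fin_cases i
  · simp
    ring
  · simp
    ring
  · simp
    ring

/-- **the parallelogram law, uniformly in the twist** -/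
theorem par_unif {e1 e2 e3 : ℚ} (h12 : e1 ≠ e2) (h13 : e1 ≠ e3) (h23 : e2 ≠ e3) :
    ∃ C : ℝ, 0 ≤ C ∧ ∀ d : ℚ, d ≠ 0 → ∀ P Q : Pt (d * e1) (d * e2) (d * e3),
      |htd d (P + Q) + htd d (P - Q) - 2 * (htd d P + htd d Q)| ≤ C := by
  have := crv_ell h12 h13 h23
  obtain ⟨C1, hC1⟩ := sym2_scaled
  obtain ⟨C2, hC2⟩ := WeierstrassCurve.abs_logHeight_addSubMap_sub_two_mul_logHeight_le
    (crv e1 e2 e3)
  have key : ∀ d : ℚ, d ≠ 0 → ∀ P Q : Pt (d * e1) (d * e2) (d * e3),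
      |htd d (P + Q) + htd d (P - Q) - 2 * (htd d P + htd d Q)| ≤ 3 * C1 + C2 := by
    intro d hd P Q
    have q12 : d * e1 ≠ d * e2 := fun h => h12 (mul_left_cancel₀ hd h)
    have q13 : d * e1 ≠ d * e3 := fun h => h13 (mul_left_cancel₀ hd h)
    have q23 : d * e2 ≠ d * e3 := fun h => h23 (mul_left_cancel₀ hd h)
    have a1 := hC1 _ _ _ d hd P Q
    have a2 := hC1 _ _ _ d hd (P + Q) (P - Q)
    have a3 := hC2 (sg d (P.sym2x Q))
    obtain ⟨c, hc, hceq⟩ := addSub_sym2x q12 q13 q23 P Q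
    rw [addSub_scaled, hceq] at a3
    have e : sg d (c • (P + Q).sym2x (P - Q)) = c • sg d ((P + Q).sym2x (P - Q)) := by
      unfold sg
      ext i
      fin_cases i
      · simp
      · simp
        ring
      · simp
        ring
    rw [e, logHeight_smul_eq_logHeight _ hc] at a3
    rw [abs_le] at a1 a2 a3 ⊢
    constructor <;> linarith [a1.1, a1.2, a2.1, a2.2, a3.1, a3.2]
  exact ⟨3 * C1 + C2, le_trans (abs_nonneg _) (key 1 one_ne_zero 0 0), key⟩

/-- the height of an affine point -/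
lemma htd_some {d : ℚ} (hd : d ≠ 0) {e1 e2 e3 x y : ℚ}
    (h : (crv e1 e2 e3).toAffine.Nonsingular x y) :
    htd d (Affine.Point.some x y h : Pt e1 e2 e3) =
      Real.log (max (x / d).num.natAbs (x / d).den : ℕ) := by
  rw [htd, Affine.Point.xRep_some]
  have e : (![(![x, 1] : Fin 2 → ℚ) 0, d * (![x, 1] : Fin 2 → ℚ) 1] : Fin 2 → ℚ) = ![x, d] := by
    ext i
    fin_cases i <;> simp
  rw [e, ← logHeight₁_div_eq_logHeight, Rat.logHeight₁_eq_log_max]

end Pool.Agent.H64.IP
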