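import Mathlib

/-!
# Lower and upper bounds for the heights of the points of a twist
-/

set_option autoImplicit false

namespace Pool.Agent.H64.IP

/-- the height of a point of a twist which is not of order two is large -/
lemma low (a b d : ℤ) (hd : Squarefree d) (x y : ℚ) (hy : y ≠ 0)
    (h : y ^ 2 = x * (x - a * d) * (x - b * d)) :
    d.natAbs ≤ (1 + a.natAbs) * (1 + b.natAbs) *
      (max (x / d).num.natAbs (x / d).den) ^ 4 := by
  have hd0 : d ≠ 0 := hd.ne_zero
  have hdq : (d : ℚ) ≠ 0 := by exact_mod_cast hd0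
  set q : ℚ := x / d with hq
  set m : ℤ := q.num with hm
  set n : ℕ := q.den with hn
  have hn0 : (n : ℚ) ≠ 0 := by exact_mod_cast q.den_ne_zero
  have hqm : q * n = m := Rat.mul_den_eq_num q
  have hx : x = q * d := by
    rw [hq]
    field_simp
  set F : ℤ := n * m * (m - a * n) * (m - b * n) with hF
  have h1 : ((d * F : ℤ) : ℚ) = (y * n ^ 2 / d) ^ 2 := by
    rw [div_pow, mul_pow, h, hx, hF]
    push_cast
    rw [← hqm]
    field_simp
  have hsq : IsSquare (d * F) := by
    rw [← Rat.isSquare_intCast_iff, h1]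
    exact IsSquare.sq _
  have hF0 : F ≠ 0 := by
    intro h0
    rw [h0, mul_zero, Int.cast_zero] at h1
    have h2 := pow_eq_zero_iff (two_ne_zero) |>.1 h1.symm
    exact (div_ne_zero (mul_ne_zero hy (pow_ne_zero _ hn0)) hdq) h2
  have hdF : d ∣ F := by
    obtain ⟨r, hr⟩ := hsq
    have h2 : d ∣ r ^ 2 := by
      rw [pow_two, ← hr]
      exact dvd_mul_right _ _
    have h3 : d ∣ r := (Squarefree.dvd_pow_iff_dvd hd two_ne_zero).1 h2
    obtain ⟨s, rfl⟩ := h3
    refine ⟨s * s, ?_⟩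
    have h4 : d * F = d * (d * (s * s)) := by
      rw [hr]
      ring
    exact mul_left_cancel₀ hd0 h4
  have h5 : d.natAbs ≤ F.natAbs :=
    Nat.le_of_dvd (Int.natAbs_pos.2 hF0) (Int.natAbs_dvd_natAbs.2 hdF)
  refine h5.trans ?_
  set H : ℕ := max m.natAbs n with hH
  have e1 : m.natAbs ≤ H := le_max_left _ _
  have e2 : n ≤ H := le_max_right _ _
  have e3 : ∀ c : ℤ, (m - c * n).natAbs ≤ (1 + c.natAbs) * H := by
    intro c
    refine (Int.natAbs_sub_le _ _).trans ?_
    rw [Int.natAbs_mul, Int.natAbs_natCast, add_mul, one_mul]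
    exact add_le_add e1 (Nat.mul_le_mul_left _ e2)
  rw [hF, Int.natAbs_mul, Int.natAbs_mul, Int.natAbs_mul, Int.natAbs_natCast]
  calc n * m.natAbs * (m - a * n).natAbs * (m - b * n).natAbs
      ≤ H * H * ((1 + a.natAbs) * H) * ((1 + b.natAbs) * H) :=
        Nat.mul_le_mul (Nat.mul_le_mul (Nat.mul_le_mul e2 e1) (e3 a)) (e3 b)
    _ = _ := by ring

/-- the height of an integral point -/
lemma upp (x d : ℤ) (hd : d ≠ 0) :
    max ((x : ℚ) / d).num.natAbs ((x : ℚ) / d).den ≤ max x.natAbs d.natAbs := by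
  have h0 : ((x : ℚ) / d) = Rat.divInt x d := (Rat.divInt_eq_div x d).symm
  rw [h0]
  refine max_le_max ?_ ?_
  · by_cases hx : x = 0
    · subst hx
      simp
    · exact Nat.le_of_dvd (Int.natAbs_pos.2 hx) (Int.natAbs_dvd_natAbs.2 (Rat.num_dvd x hd))
  · have h1 := Rat.den_dvd x d
    exact Nat.le_of_dvd (Int.natAbs_pos.2 hd) (by
      have := Int.natAbs_dvd_natAbs.2 h1
      simpa using this)

end Pool.Agent.H64.IP
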