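import Mathlib
import Pool.Graph.R_pool_sql_team_seeded_63374d34.N394.FPC.E

/-!
# Few large integral points in one class, for cubic polynomials with integral roots
-/

set_option autoImplicit false

namespace Pool.Agent.H64.IP

open Polynomial

/-- few large integral points in one class -/
theorem few_class : ∃ N : ℕ, ∀ (A B : ℤ), A ≠ 0 → B ≠ 0 → A ≠ B → ∀ H : ℕ, 1 ≤ H →
    |A + B| ≤ H → |A * B| ≤ H → ∀ s : Finset ℤ, (∀ x ∈ s, 2 ^ 14 * (H : ℤ) ^ 10 < |x|) →
    (∀ x ∈ s, ∀ y ∈ s, IsSquare ((x : ℚ) * y) ∧ IsSquare (((x : ℚ) - A) * (y - A)) ∧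
      IsSquare (((x : ℚ) - B) * (y - B))) → s.card ≤ N := by
  obtain ⟨N, hN⟩ := Pool.Agent.N394.FPC.classK 3 le_rfl
  refine ⟨N * 2 ^ 3, ?_⟩
  intro A B hA hB hAB H hH h1 h2 s hs hcl
  set g : ℤ[X] := X ^ 3 + C (-(A + B)) * X ^ 2 + C (A * B) * X with hg
  have hge : g = X * (X - C A) * (X - C B) := by
    rw [hg]
    simp only [C_neg, C_add, C_mul]
    ring
  have hAq : (A : ℚ) ≠ 0 := by exact_mod_cast hA
  have hBq : (B : ℚ) ≠ 0 := by exact_mod_cast hB
  have hABq : (A : ℚ) ≠ B := by exact_mod_cast hAB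
  have hdeg : g.natDegree = 3 := by
    rw [hg]
    compute_degree!
  have hsep : (g.map (Int.castRingHom ℚ)).Separable := by
    rw [hge]
    simp only [Polynomial.map_mul, Polynomial.map_sub, Polynomial.map_X, Polynomial.map_C]
    have eA : (Int.castRingHom ℚ) A = (A : ℚ) := rfl
    have eB : (Int.castRingHom ℚ) B = (B : ℚ) := rfl
    rw [eA, eB]
    have e0 : (X : ℚ[X]) = X - C 0 := by simp
    have : (X : ℚ[X]) * (X - C (A : ℚ)) * (X - C (B : ℚ)) =
        ∏ i : Fin 3, (X - C ((![0, (A : ℚ), (B : ℚ)] : Fin 3 → ℚ) i)) := by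
      rw [Fin.prod_univ_three]
      simp
    rw [this]
    apply separable_prod_X_sub_C_iff.2
    intro i j hij
    fin_cases i <;> fin_cases j <;> simp at hij ⊢
    all_goals first
      | exact hA hij | exact hA hij.symm | exact hAq hij | exact hAq hij.symm
      | exact hB hij | exact hB hij.symm | exact hBq hij | exact hBq hij.symm
      | exact hAB hij | exact hAB hij.symm | exact hABq hij | exact hABq hij.symm
  have hcoef : ∀ i, |g.coeff i| ≤ H := by
    intro i
    have hH0 : (1 : ℤ) ≤ H := by exact_mod_cast hH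
    rw [hg]
    simp only [coeff_add, coeff_C_mul, coeff_X_pow, coeff_X]
    rcases i with _ | _ | _ | _ | i
    · simp
    · simpa using h2
    · simp
      rw [← abs_neg]
      simpa [add_comm] using h1
    · simpa using hH0
    · simp
  have hmain := hN ℚ H g hH hdeg hsep hcoef s hs ?_
  · simpa using hmain
  intro x hx y hy
  obtain ⟨⟨r0, hr0⟩, ⟨r1, hr1⟩, ⟨r2, hr2⟩⟩ := hcl x hx y hy
  refine ⟨1, one_ne_zero, Lagrange.interpolate (Finset.univ : Finset (Fin 3))
    (![0, (A : ℚ), (B : ℚ)] : Fin 3 → ℚ) ![r0, r1, r2], ?_⟩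
  have hinj : Set.InjOn (![0, (A : ℚ), (B : ℚ)] : Fin 3 → ℚ) (Finset.univ : Finset (Fin 3)) := by
    intro i _ j _ hij
    fin_cases i <;> fin_cases j <;> simp at hij ⊢
    all_goals first
      | exact hA hij | exact hA hij.symm | exact hAq hij | exact hAq hij.symm
      | exact hB hij | exact hB hij.symm | exact hBq hij | exact hBq hij.symm
      | exact hAB hij | exact hAB hij.symm | exact hABq hij | exact hABq hij.symm
  have hev : ∀ i, (Lagrange.interpolate (Finset.univ : Finset (Fin 3))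
    (![0, (A : ℚ), (B : ℚ)] : Fin 3 → ℚ) ![r0, r1, r2]).eval
      ((![0, (A : ℚ), (B : ℚ)] : Fin 3 → ℚ) i) = ![r0, r1, r2] i := fun i =>
    Lagrange.eval_interpolate_at_node _ hinj (Finset.mem_univ i)
  generalize Lagrange.interpolate (Finset.univ : Finset (Fin 3))
    (![0, (A : ℚ), (B : ℚ)] : Fin 3 → ℚ) ![r0, r1, r2] = P at hev
  intro φ θ hθ
  have hφ : (φ : ℚ →+* ℂ) = algebraMap ℚ ℂ := RingHom.ext_rat _ _
  have hθ' : θ = 0 ∨ θ = (A : ℂ) ∨ θ = (B : ℂ) := by
    rw [hge] at hθ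
    have eA : aeval θ (C A) = (A : ℂ) := by
      rw [aeval_C]
      rfl
    have eB : aeval θ (C B) = (B : ℂ) := by
      rw [aeval_C]
      rfl
    rw [aeval_mul, aeval_mul, aeval_sub, aeval_sub, aeval_X, eA, eB, mul_eq_zero,
      mul_eq_zero] at hθ
    rcases hθ with (hθ | hθ) | hθ
    · left; exact hθ
    · right; left; exact sub_eq_zero.1 hθ
    · right; right; exact sub_eq_zero.1 hθ
  have hq : ∀ q : ℚ, eval₂ (φ : ℚ →+* ℂ) (q : ℂ) P = ((P.eval q : ℚ) : ℂ) := by
    intro q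
    rw [hφ]
    have : (q : ℂ) = algebraMap ℚ ℂ q := rfl
    rw [this, eval₂_at_apply]
    rfl
  have h0 := hev 0
  have hA1 := hev 1
  have hB1 := hev 2
  simp at h0 hA1 hB1
  rw [map_one, one_mul]
  rcases hθ' with h | h | h
  · rw [h]
    have e := hq 0
    rw [Rat.cast_zero] at e
    rw [e, h0]
    have : ((x : ℂ)) * y = ((r0 : ℚ) : ℂ) * r0 := by exact_mod_cast congrArg (fun q : ℚ => (q : ℂ)) hr0
    rw [sub_zero, sub_zero, this]
    ring
  · rw [h]
    have e := hq A
    rw [Rat.cast_intCast] at e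
    rw [e, hA1]
    have : ((x : ℂ) - A) * (y - A) = ((r1 : ℚ) : ℂ) * r1 := by
      exact_mod_cast congrArg (fun q : ℚ => (q : ℂ)) hr1
    rw [this]
    ring
  · rw [h]
    have e := hq B
    rw [Rat.cast_intCast] at e
    rw [e, hB1]
    have : ((x : ℂ) - B) * (y - B) = ((r2 : ℚ) : ℂ) * r2 := by
      exact_mod_cast congrArg (fun q : ℚ => (q : ℂ)) hr2
    rw [this]
    ring

end Pool.Agent.H64.IP
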