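import Mathlib
import Pool.Agent.H64.IP.CL
import Pool.Agent.H64.IP.LG
import Pool.Agent.H64.IP.AB
import Pool.Agent.H64.IP.HT
import Pool.Agent.H64.IP.LB

/-!
# The number of points on one curve
-/

set_option autoImplicit false

namespace Pool.Agent.H64.IP

open WeierstrassCurve Height Pool.Agent.H437R2.Man.MW Finset

/-- the points of order two -/
lemma two_tors {e1 e2 e3 : ℚ} (h12 : e1 ≠ e2) (h13 : e1 ≠ e3) (h23 : e2 ≠ e3) :
    ∃ T : Finset (Pt e1 e2 e3), T.card ≤ 4 ∧ 0 ∈ T ∧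
      ∀ (x : ℚ) (h : (crv e1 e2 e3).toAffine.Nonsingular x 0), Affine.Point.some x 0 h ∈ T := by
  classical
  have hT1 : (crv e1 e2 e3).toAffine.Nonsingular (-e1) 0 := by
    apply crv_nonsing h12 h13 h23; ring
  have hT2 : (crv e1 e2 e3).toAffine.Nonsingular (-e2) 0 := by
    apply crv_nonsing h12 h13 h23; ring
  have hT3 : (crv e1 e2 e3).toAffine.Nonsingular (-e3) 0 := by
    apply crv_nonsing h12 h13 h23; ring
  refine ⟨{0, Affine.Point.some _ _ hT1, Affine.Point.some _ _ hT2, Affine.Point.some _ _ hT3},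
    ?_, by simp, ?_⟩
  · refine (card_insert_le _ _).trans ?_
    refine Nat.succ_le_succ ((card_insert_le _ _).trans ?_)
    refine Nat.succ_le_succ ((card_insert_le _ _).trans ?_)
    simp
  · intro x h
    have q := crv_eqn.mp h.1
    have hq : (x + e1) * (x + e2) * (x + e3) = 0 := by rw [← q]; ring
    rcases mul_eq_zero.mp hq with hq' | hq'
    · rcases mul_eq_zero.mp hq' with hq'' | hq''
      · have hx : x = -e1 := by linear_combination hq''
        subst hx
        simp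
      · have hx : x = -e2 := by linear_combination hq''
        subst hx
        simp
    · have hx : x = -e3 := by linear_combination hq'
      subst hx
      simp

/-- a point with `y = 0` has finite order -/
lemma tors_of_y {e1 e2 e3 x : ℚ} (h : (crv e1 e2 e3).toAffine.Nonsingular x 0) :
    IsOfFinAddOrder (Affine.Point.some x 0 h : Pt e1 e2 e3) := by
  rw [isOfFinAddOrder_iff_nsmul_eq_zero]
  refine ⟨2, by norm_num, ?_⟩
  rw [two_nsmul]
  apply Affine.Point.add_self_of_Y_eq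
  simp [Affine.negY, crv]

/-- the torsion is finite -/
lemma tors_fin {e1 e2 e3 : ℚ} (h12 : e1 ≠ e2) (h13 : e1 ≠ e3) (h23 : e2 ≠ e3) :
    ∃ T : Finset (Pt e1 e2 e3), ∀ g : Pt e1 e2 e3, IsOfFinAddOrder g → g ∈ T := by
  obtain ⟨C, hC0, hC⟩ := par_law h12 h13 h23
  refine ⟨(finite_ht C).toFinset, fun g hg => ?_⟩
  rw [Set.Finite.mem_toFinset]
  exact tors_le (h := fun P : Pt e1 e2 e3 => ht P) ht_zero hC0 hC hg

/-- the large integral points -/
theorem large_pts : ∃ N : ℕ, ∀ (A B : ℤ), A ≠ 0 → B ≠ 0 → A ≠ B → ∀ H : ℕ, 1 ≤ H →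
    |A + B| ≤ H → |A * B| ≤ H → ∀ e1 e2 e3 : ℚ, e1 = 0 → e2 = -A → e3 = -B →
    ∀ T : Finset (Pt e1 e2 e3), (∀ g : Pt e1 e2 e3, IsOfFinAddOrder g → g ∈ T) →
    ∀ s : Finset ℤ, (∀ x ∈ s, 2 ^ 14 * (H : ℤ) ^ 10 < |x| ∧
      ∃ y : ℤ, y ^ 2 = x * (x - A) * (x - B)) →
    s.card ≤ N * T.card * 2 ^ Module.finrank ℤ (Pt e1 e2 e3) := by
  classical
  obtain ⟨N, hN⟩ := few_class
  refine ⟨N, ?_⟩
  intro A B hA hB hAB H hH h1 h2 e1 e2 e3 he1 he2 he3 T hT s hs
  have q12 : e1 ≠ e2 := by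
    rw [he1, he2]
    intro h
    apply hA
    have : (A : ℚ) = 0 := by linarith
    exact_mod_cast this
  have q13 : e1 ≠ e3 := by
    rw [he1, he3]
    intro h
    apply hB
    have : (B : ℚ) = 0 := by linarith
    exact_mod_cast this
  have q23 : e2 ≠ e3 := by
    rw [he2, he3]
    intro h
    apply hAB
    have : (A : ℚ) = B := by linarith
    exact_mod_cast this
  have hy : ∀ x : ℤ, ∃ y : ℚ, x ∈ s → (crv e1 e2 e3).toAffine.Nonsingular x y := by
    intro x
    by_cases hx : x ∈ s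
    · obtain ⟨y, hy⟩ := (hs x hx).2
      refine ⟨y, fun _ => crv_nonsing q12 q13 q23 ?_⟩
      rw [he1, he2, he3]
      have h3 : ((y : ℚ)) ^ 2 = x * (x - A) * (x - B) := by exact_mod_cast hy
      rw [h3]
      ring
    · exact ⟨0, fun h => absurd h hx⟩
  choose y hy using hy
  set pt : ℤ → Pt e1 e2 e3 := fun x => if h : x ∈ s then Affine.Point.some (x : ℚ) (y x) (hy x h)
    else 0 with hpt
  refine card_classes (Pt e1 e2 e3) (pt_fg q12 q13 q23) 2 (by norm_num) (N * T.card) s pt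
    fun s' hs' hcl => ?_
  rcases s'.eq_empty_or_nonempty with rfl | ⟨x0, hx0⟩
  · simp
  have hcl' : ∀ x : ℤ, ∃ u t : Pt e1 e2 e3, x ∈ s' → IsOfFinAddOrder t ∧
      pt x = pt x0 + 2 • u + t := by
    intro x
    by_cases hx : x ∈ s'
    · obtain ⟨u, t, ht, hu⟩ := hcl x hx x0 hx0
      exact ⟨u, t, fun _ => ⟨ht, hu⟩⟩
    · exact ⟨0, 0, fun h => absurd h hx⟩
  choose u t hut using hcl'
  refine card_le_mul_card_image_of_maps_to (f := t) (fun x hx => hT _ (hut x hx).1) N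
    fun τ _ => ?_
  refine hN A B hA hB hAB H hH h1 h2 _ (fun x hx => (hs x (hs' (mem_filter.1 hx).1)).1) ?_
  intro x hx x' hx'
  rw [mem_filter] at hx hx'
  have e4 := (hut x hx.1).2
  have e5 := (hut x' hx'.1).2
  have e6 : pt x' = pt x + ((u x' - u x) + (u x' - u x)) := by
    rw [e4, e5, hx.2, hx'.2, two_nsmul, two_nsmul]
    abel
  simp only [hpt] at e6
  rw [dif_pos (hs' hx.1), dif_pos (hs' hx'.1)] at e6
  have key : ∀ e : ℚ, (e1 - e) * (e2 - e) * (e3 - e) = 0 → IsSquare (((x : ℚ) + e) * (x' + e)) :=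
    fun e he => same_class _ e6 he
  have k1 := key e1 (by ring)
  have k2 := key e2 (by ring)
  have k3 := key e3 (by ring)
  rw [he1, add_zero, add_zero] at k1
  rw [he2, ← sub_eq_add_neg, ← sub_eq_add_neg] at k2
  rw [he3, ← sub_eq_add_neg, ← sub_eq_add_neg] at k3
  exact ⟨k1, k2, k3⟩

end Pool.Agent.H64.IP
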