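import Mathlib
import Pool.Agent.H64.IP.PC

/-!
# Points of bounded height on the twists by large squarefree numbers
-/

set_option autoImplicit false

namespace Pool.Agent.H64.IP

open WeierstrassCurve Height Pool.Agent.H437R2.Man.MW Finset

/-- the twist by `d` of `y² = x (x - a) (x - b)` -/
abbrev G (a b d : ℤ) : Type := Pt ((d : ℚ) * 0) ((d : ℚ) * (-a)) ((d : ℚ) * (-b))

lemma dist {a b d : ℤ} (ha : a ≠ 0) (hb : b ≠ 0) (hab : a ≠ b) (hd : d ≠ 0) :
    (d : ℚ) * 0 ≠ (d : ℚ) * (-a) ∧ (d : ℚ) * 0 ≠ (d : ℚ) * (-b) ∧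
      (d : ℚ) * (-a) ≠ (d : ℚ) * (-b) := by
  have hdq : (d : ℚ) ≠ 0 := by exact_mod_cast hd
  have haq : (a : ℚ) ≠ 0 := by exact_mod_cast ha
  have hbq : (b : ℚ) ≠ 0 := by exact_mod_cast hb
  have habq : (a : ℚ) ≠ b := by exact_mod_cast hab
  refine ⟨fun h => haq ?_, fun h => hbq ?_, fun h => habq ?_⟩
  · have := mul_left_cancel₀ hdq h
    linarith
  · have := mul_left_cancel₀ hdq h
    linarith
  · have := mul_left_cancel₀ hdq h
    linarith

/-- the height of a nontorsion point -/
lemma height_low {a b d : ℤ} (hd : Squarefree d) (g : G a b d) (hg : ¬ IsOfFinAddOrder g) :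
    (Real.log d.natAbs - Real.log ((1 + a.natAbs) * (1 + b.natAbs) : ℕ)) / 4 ≤ htd d g := by
  have hd0 : d ≠ 0 := hd.ne_zero
  have hdq : (d : ℚ) ≠ 0 := by exact_mod_cast hd0
  match g, hg with
  | 0, hg => exact absurd (isOfFinAddOrder_iff_nsmul_eq_zero.2 ⟨1, one_pos, by simp⟩) hg
  | .some x y h, hg =>
    have hy : y ≠ 0 := by
      rintro rfl
      exact hg (tors_of_y h)
    have q := crv_eqn.mp h.1
    have h1 := low a b d hd x y hy (by rw [q]; ring)
    rw [htd_some hdq]
    set Hh : ℕ := max (x / d).num.natAbs (x / d).den with hH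
    have hH1 : 1 ≤ Hh := le_trans (x / d).den_pos (le_max_right _ _)
    have hHr : (0 : ℝ) < Hh := by exact_mod_cast hH1
    have hd1 : (0 : ℝ) < d.natAbs := by
      have := Int.natAbs_pos.2 hd0
      exact_mod_cast this
    have h2 : (d.natAbs : ℝ) ≤ ((1 + a.natAbs) * (1 + b.natAbs) : ℕ) * (Hh : ℝ) ^ 4 := by
      exact_mod_cast h1
    have hc : (0 : ℝ) < ((1 + a.natAbs) * (1 + b.natAbs) : ℕ) := by positivity
    have h3 := Real.log_le_log hd1 h2
    rw [Real.log_mul hc.ne' (by positivity), Real.log_pow] at h3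
    push_cast at h3 ⊢
    linarith

/-- the points of bounded height on the twists by large squarefree numbers -/
theorem rat_large (a b : ℤ) (ha : a ≠ 0) (hb : b ≠ 0) (hab : a ≠ b) (M : ℕ) :
    ∃ d0 K : ℕ, 1 ≤ K ∧ ∀ d : ℤ, Squarefree d → d0 ≤ d.natAbs →
      (∃ T : Finset (G a b d), T.card ≤ 4 ∧ ∀ g : G a b d, IsOfFinAddOrder g → g ∈ T) ∧
      ∀ s : Finset (G a b d), (∀ g ∈ s, htd d g ≤ M * Real.log (d.natAbs + 1)) →
        s.card ≤ 4 * K ^ Module.finrank ℤ (G a b d) := by
  have haq : (a : ℚ) ≠ 0 := by exact_mod_cast ha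
  have hbq : (b : ℚ) ≠ 0 := by exact_mod_cast hb
  have habq : (a : ℚ) ≠ b := by exact_mod_cast hab
  obtain ⟨C, hC0, hC⟩ := par_unif (e1 := 0) (e2 := -(a : ℚ)) (e3 := -(b : ℚ))
    (fun h => haq (by linarith)) (fun h => hbq (by linarith)) (fun h => habq (by linarith))
  set c0 : ℝ := Real.log ((1 + a.natAbs) * (1 + b.natAbs) : ℕ) with hc0
  have hc00 : 0 ≤ c0 := Real.log_natCast_nonneg _
  set Lm : ℝ := 2 * c0 + 8 * C + 8 with hLm
  set j : ℕ := 8 * (16 * M + 1) with hj
  refine ⟨⌈Real.exp Lm⌉₊, 2 ^ j, Nat.one_le_two_pow, fun d hd hdd => ?_⟩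
  have hd0 : d ≠ 0 := hd.ne_zero
  have hdq : (d : ℚ) ≠ 0 := by exact_mod_cast hd0
  obtain ⟨q12, q13, q23⟩ := dist ha hb hab hd0
  have hdr : Real.exp Lm ≤ d.natAbs := (Nat.le_ceil _).trans (by exact_mod_cast hdd)
  have hL : Lm ≤ Real.log d.natAbs := by
    rw [Real.le_log_iff_exp_le (lt_of_lt_of_le (Real.exp_pos _) hdr)]
    exact hdr
  set L := Real.log d.natAbs with hLdef
  set l : ℝ := (L - c0) / 4 with hl
  have hl8 : L / 8 ≤ l := by
    rw [hl]
    linarith
  have hLpos : 8 ≤ L := by linarith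
  have hLC : 8 * C + 8 ≤ L := by linarith
  have hlC : C < l := by linarith
  have hlow : ∀ g : G a b d, ¬ IsOfFinAddOrder g → l ≤ htd d g := fun g hg => height_low hd g hg
  obtain ⟨T, hT4, hT0, hTy⟩ := two_tors q12 q13 q23
  have hTt : ∀ g : G a b d, IsOfFinAddOrder g → g ∈ T := by
    intro g hg
    match g, hg with
    | 0, _ => exact hT0
    | .some x y h, hg =>
      by_cases hy : y = 0
      · subst hy
        exact hTy x h
      · exfalso
        have h1 := tors_le (h := fun P : G a b d => htd d P) (htd_zero _) hC0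
          (hC d hdq) hg
        have q := crv_eqn.mp h.1
        have h2 := low a b d hd x y hy (by rw [q]; ring)
        have h3 : l ≤ htd d (Affine.Point.some x y h : G a b d) := by
          rw [htd_some hdq]
          set Hh : ℕ := max (x / d).num.natAbs (x / d).den with hH
          have hH1 : 1 ≤ Hh := le_trans (x / d).den_pos (le_max_right _ _)
          have hHr : (0 : ℝ) < Hh := by exact_mod_cast hH1
          have hd1 : (0 : ℝ) < d.natAbs := by
            have := Int.natAbs_pos.2 hd0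
            exact_mod_cast this
          have h2' : (d.natAbs : ℝ) ≤ ((1 + a.natAbs) * (1 + b.natAbs) : ℕ) * (Hh : ℝ) ^ 4 := by
            exact_mod_cast h2
          have hc : (0 : ℝ) < ((1 + a.natAbs) * (1 + b.natAbs) : ℕ) := by positivity
          have h3 := Real.log_le_log hd1 h2'
          rw [Real.log_mul hc.ne' (by positivity), Real.log_pow] at h3
          push_cast at h3
          have e1 : c0 = Real.log ((1 + (a.natAbs : ℝ)) * (1 + (b.natAbs : ℝ))) := by
            rw [hc0]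
            push_cast
            rfl
          rw [hl, e1, hLdef]
          push_cast
          linarith
        have h4 : htd d (Affine.Point.some x y h : G a b d) ≤ C := h1
        linarith
  refine ⟨⟨T, hT4, hTt⟩, fun s hs => ?_⟩
  have hR : (M : ℝ) * Real.log (d.natAbs + 1) ≤ M * (2 * L) := by
    refine mul_le_mul_of_nonneg_left ?_ (Nat.cast_nonneg _)
    have hd1 : (1 : ℝ) ≤ d.natAbs := by
      have := Int.natAbs_pos.2 hd0
      exact_mod_cast this
    have h1 : (d.natAbs : ℝ) + 1 ≤ 2 * d.natAbs := by linarith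
    have h2 := Real.log_le_log (by linarith) h1
    rw [Real.log_mul (by norm_num) (by linarith)] at h2
    have h3 := Real.log_two_lt_d9
    linarith
  have h3j : (8 * (16 * (M : ℝ) + 1)) < 3 ^ j := by
    have h1 : j < 3 ^ j := Nat.lt_pow_self (by norm_num)
    have h2 : (j : ℝ) < 3 ^ j := by exact_mod_cast h1
    rw [hj] at h2
    push_cast at h2
    rw [hj]
    exact h2
  have hjj : 8 * ((M : ℝ) * Real.log (d.natAbs + 1)) + 5 * C < 3 ^ j * l := by
    have h1 : 8 * ((M : ℝ) * Real.log (d.natAbs + 1)) + 5 * C ≤ (16 * M + 1) * L := by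
      nlinarith
    have h2 : (16 * (M : ℝ) + 1) * L < 3 ^ j * (L / 8) := by
      have : 0 < L := by linarith
      nlinarith
    have h3 : (3 : ℝ) ^ j * (L / 8) ≤ 3 ^ j * l := mul_le_mul_of_nonneg_left hl8 (by positivity)
    linarith
  have h1 := small_pts (h := fun P : G a b d => htd d P) (pt_fg q12 q13 q23) (htd_zero _)
    (fun P => htd_nonneg _ P) hC0 (hC d hdq) hlC.le hlow j hjj T hTt s hs
  exact h1.trans (Nat.mul_le_mul_right _ hT4)

end Pool.Agent.H64.IP
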