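import Mathlib
import Pool.Agent.H64.IP.PD
import Pool.Agent.H64.PM.PMF

/-!
# The number of integral points and of rational points of bounded height on the twists
-/

set_option autoImplicit false

namespace Pool.Agent.H64.IP

open WeierstrassCurve Height Pool.Agent.H437R2.Man.MW Finset

/-- the integral points of `y² = x (x - a d) (x - b d)` -/
def IntPts (a b d : ℤ) : Set (ℤ × ℤ) := {q | q.2 ^ 2 = q.1 * (q.1 - a * d) * (q.1 - b * d)}

/-- the rational points of `y² = x (x - a d) (x - b d)` whose abscissas have height at most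
`(|d| + 1) ^ M` -/
def RatPts (a b d : ℤ) (M : ℕ) : Set (ℚ × ℚ) :=
  {q | q.2 ^ 2 = q.1 * (q.1 - a * d) * (q.1 - b * d) ∧
    q.1.num.natAbs ≤ (d.natAbs + 1) ^ M ∧ q.1.den ≤ (d.natAbs + 1) ^ M}

lemma ncard_le_of {α : Type} {S : Set α} {n : ℕ} (h : ∀ s : Finset α, (∀ q ∈ s, q ∈ S) → s.card ≤ n) :
    S.Finite ∧ S.ncard ≤ n := by
  classical
  have hf : S.Finite := by
    by_contra hinf
    obtain ⟨t, ht, htc⟩ := Set.Infinite.exists_subset_card_eq hinf (n + 1)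
    have := h t (fun q hq => ht hq)
    omega
  refine ⟨hf, ?_⟩
  rw [Set.ncard_eq_toFinset_card S hf]
  exact h _ fun q hq => hf.mem_toFinset.1 hq

/-- the rational points give points of the twist -/
lemma rat_le {a b d : ℤ} (ha : a ≠ 0) (hb : b ≠ 0) (hab : a ≠ b) (hd : d ≠ 0) {M n : ℕ}
    (hn : ∀ s : Finset (G a b d), (∀ g ∈ s, htd d g ≤ (M + 1 : ℕ) * Real.log (d.natAbs + 1)) →
      s.card ≤ n) (s : Finset (ℚ × ℚ)) (hs : ∀ q ∈ s, q ∈ RatPts a b d M) : s.card ≤ n := by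
  classical
  have hdq : (d : ℚ) ≠ 0 := by exact_mod_cast hd
  obtain ⟨q12, q13, q23⟩ := dist ha hb hab hd
  have hns : ∀ q ∈ s, (crv ((d : ℚ) * 0) ((d : ℚ) * (-a)) ((d : ℚ) * (-b))).toAffine.Nonsingular
      q.1 q.2 := by
    intro q hq
    refine crv_nonsing q12 q13 q23 ?_
    rw [(hs q hq).1]
    ring
  set pt : ℚ × ℚ → G a b d := fun q => if h : q ∈ s then Affine.Point.some q.1 q.2 (hns q h)
    else 0 with hpt
  have hinj : Set.InjOn pt s := by
    intro q hq q' hq' h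
    simp only [hpt] at h
    rw [dif_pos (mem_coe.1 hq), dif_pos (mem_coe.1 hq')] at h
    rw [Affine.Point.some.injEq] at h
    exact Prod.ext h.1 h.2
  rw [← card_image_of_injOn hinj]
  refine hn _ fun g hg => ?_
  obtain ⟨q, hq, rfl⟩ := mem_image.1 hg
  simp only [hpt]
  rw [dif_pos hq, htd_some hdq]
  obtain ⟨-, h1, h2⟩ := hs q hq
  have h0 : q.1 / d = Rat.divInt q.1.num (q.1.den * d) := by
    rw [Rat.divInt_eq_div]
    push_cast
    rw [← div_div, Rat.num_div_den]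
  have hden : (q.1.den * d : ℤ) ≠ 0 := mul_ne_zero (by exact_mod_cast q.1.den_ne_zero) hd
  have h3 : (q.1 / d).num.natAbs ≤ (d.natAbs + 1) ^ (M + 1) := by
    refine le_trans ?_ (h1.trans (Nat.pow_le_pow_right (by omega) (by omega)))
    rw [h0]
    by_cases hx : q.1.num = 0
    · rw [hx]
      simp
    · exact Nat.le_of_dvd (Int.natAbs_pos.2 hx) (Int.natAbs_dvd_natAbs.2 (Rat.num_dvd _ hden))
  have h4 : (q.1 / d).den ≤ (d.natAbs + 1) ^ (M + 1) := by
    have h5 := Rat.den_dvd q.1.num (q.1.den * d)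
    rw [← h0] at h5
    have h6 : (q.1 / d).den ≤ (q.1.den * d : ℤ).natAbs :=
      Nat.le_of_dvd (Int.natAbs_pos.2 hden) (by
        have := Int.natAbs_dvd_natAbs.2 h5
        simpa using this)
    rw [Int.natAbs_mul, Int.natAbs_natCast] at h6
    refine h6.trans ?_
    rw [pow_succ]
    exact Nat.mul_le_mul h2 (by omega)
  have h5 : (max (q.1 / d).num.natAbs (q.1 / d).den) ≤ (d.natAbs + 1) ^ (M + 1) := max_le h3 h4
  have h6 : ((max (q.1 / d).num.natAbs (q.1 / d).den : ℕ) : ℝ) ≤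
      ((d.natAbs : ℝ) + 1) ^ (M + 1) := by exact_mod_cast h5
  have h7 : (0 : ℝ) < ((max (q.1 / d).num.natAbs (q.1 / d).den : ℕ) : ℝ) := by
    have : 1 ≤ max (q.1 / d).num.natAbs (q.1 / d).den := le_trans (q.1 / d).den_pos (le_max_right _ _)
    exact_mod_cast this
  have h8 := Real.log_le_log h7 h6
  rw [Real.log_pow] at h8
  exact h8

/-- the integral points: small and large ones -/
lemma int_le {a b d : ℤ} {n1 n2 B : ℕ}
    (h1 : ∀ s : Finset (ℚ × ℚ), (∀ q ∈ s, q.2 ^ 2 = q.1 * (q.1 - a * d) * (q.1 - b * d) ∧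
      q.1.num.natAbs ≤ B ∧ q.1.den ≤ 1) → s.card ≤ n1)
    (h2 : ∀ s : Finset ℤ, (∀ x ∈ s, (B : ℤ) < |x| ∧ ∃ y : ℤ, y ^ 2 = x * (x - a * d) * (x - b * d)) →
      s.card ≤ n2) (s : Finset (ℤ × ℤ)) (hs : ∀ q ∈ s, q ∈ IntPts a b d) :
    s.card ≤ n1 + 2 * n2 := by
  classical
  rw [← card_filter_add_card_filter_not (p := fun q : ℤ × ℤ => q.1.natAbs ≤ B)]
  refine add_le_add ?_ ?_
  · set f : ℤ × ℤ → ℚ × ℚ := fun q => ((q.1 : ℚ), (q.2 : ℚ)) with hf
    have hinj : Function.Injective f := by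
      intro q q' h
      simp only [hf, Prod.mk.injEq] at h
      exact Prod.ext (by exact_mod_cast h.1) (by exact_mod_cast h.2)
    rw [← card_image_of_injective _ hinj]
    refine h1 _ fun q hq => ?_
    obtain ⟨q', hq', rfl⟩ := mem_image.1 hq
    rw [mem_filter] at hq'
    have h3 : q'.2 ^ 2 = q'.1 * (q'.1 - a * d) * (q'.1 - b * d) := hs q' hq'.1
    refine ⟨?_, ?_, ?_⟩
    · simp only [hf]
      exact_mod_cast h3
    · simpa [hf] using hq'.2
    · simp [hf]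
  · refine (card_le_mul_card_image (f := Prod.fst) _ 2 fun x _ => ?_).trans ?_
    · by_contra hcon
      push Not at hcon
      obtain ⟨p1, hp1, p2, hp2, p3, hp3, h12, h13, h23⟩ := two_lt_card.1 hcon
      rw [mem_filter, mem_filter] at hp1 hp2 hp3
      have e1 : p1.2 ^ 2 = p1.1 * (p1.1 - a * d) * (p1.1 - b * d) := hs p1 hp1.1.1
      have e2 : p2.2 ^ 2 = p2.1 * (p2.1 - a * d) * (p2.1 - b * d) := hs p2 hp2.1.1
      have e3 : p3.2 ^ 2 = p3.1 * (p3.1 - a * d) * (p3.1 - b * d) := hs p3 hp3.1.1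
      rw [hp1.2] at e1
      rw [hp2.2] at e2
      rw [hp3.2] at e3
      have f12 : p1.2 ≠ p2.2 := fun h => h12 (Prod.ext (hp1.2.trans hp2.2.symm) h)
      have f13 : p1.2 ≠ p3.2 := fun h => h13 (Prod.ext (hp1.2.trans hp3.2.symm) h)
      have f23 : p2.2 ≠ p3.2 := fun h => h23 (Prod.ext (hp2.2.trans hp3.2.symm) h)
      have g12 : p1.2 = -p2.2 := by
        rcases sq_eq_sq_iff_eq_or_eq_neg.1 (e1.trans e2.symm) with h | h
        · exact absurd h f12
        · exact h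
      have g13 : p1.2 = -p3.2 := by
        rcases sq_eq_sq_iff_eq_or_eq_neg.1 (e1.trans e3.symm) with h | h
        · exact absurd h f13
        · exact h
      exact f23 (by linarith)
    · refine Nat.mul_le_mul_left _ (h2 _ fun x hx => ?_)
      obtain ⟨q, hq, rfl⟩ := mem_image.1 hx
      rw [mem_filter] at hq
      refine ⟨?_, q.2, hs q hq.1⟩
      have h3 := hq.2
      push Not at h3
      rw [Int.abs_eq_natAbs]
      exact_mod_cast h3

lemma H_bounds (a b d : ℤ) (hd : d ≠ 0) : 1 ≤ (a.natAbs + b.natAbs + a.natAbs * b.natAbs + 1) * d.natAbs ^ 2 ∧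
    |a * d + b * d| ≤ ((a.natAbs + b.natAbs + a.natAbs * b.natAbs + 1) * d.natAbs ^ 2 : ℕ) ∧
    |a * d * (b * d)| ≤ ((a.natAbs + b.natAbs + a.natAbs * b.natAbs + 1) * d.natAbs ^ 2 : ℕ) := by
  have h1 : 1 ≤ d.natAbs := Int.natAbs_pos.2 hd
  have h2 : 1 ≤ d.natAbs ^ 2 := Nat.one_le_pow _ _ h1
  have h3 : d.natAbs ≤ d.natAbs ^ 2 := Nat.le_self_pow (by norm_num) _
  refine ⟨?_, ?_, ?_⟩
  · exact Nat.one_le_iff_ne_zero.2 (by positivity)
  · rw [Int.abs_eq_natAbs, Nat.cast_le, ← add_mul, Int.natAbs_mul]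
    have h4 : (a + b).natAbs ≤ a.natAbs + b.natAbs := Int.natAbs_add_le _ _
    exact Nat.mul_le_mul (h4.trans (by omega)) h3
  · rw [Int.abs_eq_natAbs, Nat.cast_le]
    have h4 : a * d * (b * d) = (a * b) * d ^ 2 := by ring
    rw [h4, Int.natAbs_mul, Int.natAbs_mul, Int.natAbs_pow]
    exact Nat.mul_le_mul_right _ (by omega)

/-- the bound for one curve, large twists -/
theorem curve_large (a b : ℤ) (ha : a ≠ 0) (hb : b ≠ 0) (hab : a ≠ b) (M : ℕ) :
    ∃ d0 K C : ℕ, ∀ d : ℤ, Squarefree d → d0 ≤ d.natAbs →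
      (IntPts a b d).Finite ∧ (RatPts a b d M).Finite ∧
      (IntPts a b d).ncard + (RatPts a b d M).ncard ≤ C * K ^ Module.finrank ℤ (G a b d) := by
  obtain ⟨N, hN⟩ := large_pts
  obtain ⟨c1, hc1⟩ : ∃ c1, a.natAbs + b.natAbs + a.natAbs * b.natAbs + 1 = c1 := ⟨_, rfl⟩
  set M1 : ℕ := 14 + 10 * c1 + 20 with hM1
  obtain ⟨d1, K1, hK1, h1⟩ := rat_large a b ha hb hab (M1 + 1)
  obtain ⟨d2, K2, hK2, h2⟩ := rat_large a b ha hb hab (M + 1)
  refine ⟨max d1 d2, 2 * K1 * K2, 4 + 2 * (N * 4) + 4, fun d hd hdd => ?_⟩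
  have hd0 : d ≠ 0 := hd.ne_zero
  obtain ⟨⟨T, hT4, hT⟩, h1'⟩ := h1 d hd ((le_max_left _ _).trans hdd)
  obtain ⟨-, h2'⟩ := h2 d hd ((le_max_right _ _).trans hdd)
  have hr := rat_le ha hb hab hd0 (M := M) h2'
  obtain ⟨f2, b2⟩ := ncard_le_of hr
  set H := c1 * d.natAbs ^ 2 with hH
  obtain ⟨g1, g2, g3⟩ := H_bounds a b d hd0
  rw [hc1, ← hH] at g1 g2 g3
  have hdn : 1 ≤ d.natAbs := Int.natAbs_pos.2 hd0
  have hB : 2 ^ 14 * H ^ 10 ≤ (d.natAbs + 1) ^ M1 := by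
    have h3 : c1 ≤ 2 ^ c1 := Nat.lt_two_pow_self.le
    have h4 : 2 ≤ d.natAbs + 1 := by omega
    calc 2 ^ 14 * H ^ 10 = 2 ^ 14 * c1 ^ 10 * d.natAbs ^ 20 := by
          rw [hH]
          ring
      _ ≤ 2 ^ 14 * (2 ^ c1) ^ 10 * (d.natAbs + 1) ^ 20 :=
          Nat.mul_le_mul (Nat.mul_le_mul_left _ (Nat.pow_le_pow_left h3 _))
            (Nat.pow_le_pow_left (by omega) _)
      _ = 2 ^ (14 + 10 * c1) * (d.natAbs + 1) ^ 20 := by
          rw [pow_add, ← pow_mul, Nat.mul_comm c1 10]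
      _ ≤ (d.natAbs + 1) ^ (14 + 10 * c1) * (d.natAbs + 1) ^ 20 :=
          Nat.mul_le_mul_right _ (Nat.pow_le_pow_left h4 _)
      _ = (d.natAbs + 1) ^ M1 := by rw [← pow_add]
  have hi := int_le (a := a) (b := b) (d := d) (n1 := 4 * K1 ^ Module.finrank ℤ (G a b d))
    (n2 := N * T.card * 2 ^ Module.finrank ℤ (G a b d)) (B := 2 ^ 14 * H ^ 10)
    (fun s hs => rat_le ha hb hab hd0 (M := M1) h1' s fun q hq => by
      obtain ⟨e1, e2, e3⟩ := hs q hq
      refine ⟨e1, e2.trans hB, e3.trans ?_⟩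
      exact Nat.one_le_pow _ _ (by omega))
    (fun s hs => hN (a * d) (b * d) (mul_ne_zero ha hd0) (mul_ne_zero hb hd0)
      (fun h => hab (mul_right_cancel₀ hd0 h)) H g1 g2 g3 _ _ _ (by simp) (by push_cast; ring)
      (by push_cast; ring) T hT s (fun x hx => by
        obtain ⟨e1, e2⟩ := hs x hx
        exact ⟨by exact_mod_cast e1, e2⟩))
  obtain ⟨f1, b1⟩ := ncard_le_of hi
  refine ⟨f1, f2, ?_⟩
  set r := Module.finrank ℤ (G a b d) with hrdef
  have k1 : K1 ^ r ≤ (2 * K1 * K2) ^ r := Nat.pow_le_pow_left (by nlinarith) _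
  have k2 : K2 ^ r ≤ (2 * K1 * K2) ^ r := Nat.pow_le_pow_left (by nlinarith) _
  have k3 : 2 ^ r ≤ (2 * K1 * K2) ^ r := Nat.pow_le_pow_left (by nlinarith) _
  have k4 : N * T.card * 2 ^ r ≤ N * 4 * (2 * K1 * K2) ^ r :=
    Nat.mul_le_mul (Nat.mul_le_mul_left _ hT4) k3
  calc (IntPts a b d).ncard + (RatPts a b d M).ncard
      ≤ (4 * K1 ^ r + 2 * (N * T.card * 2 ^ r)) + 4 * K2 ^ r := add_le_add b1 b2
    _ ≤ (4 * (2 * K1 * K2) ^ r + 2 * (N * 4 * (2 * K1 * K2) ^ r)) + 4 * (2 * K1 * K2) ^ r := by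
        gcongr
    _ = _ := by ring

end Pool.Agent.H64.IP
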