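import Mathlib
import Pool.Agent.H64.IP.PE

/-!
# The moments of the number of integral points on twists
-/

set_option autoImplicit false

namespace Pool.Agent.H64.IP

open WeierstrassCurve Height Pool.Agent.H437R2.Man.MW Finset Polynomial
open Pool.Agent.H64.MM Pool.Agent.W262.RK

lemma sq_fin {R : Type} [CommRing R] [NoZeroDivisors R] (c : R) : {y : R | y ^ 2 = c}.Finite := by
  by_cases h : ∃ y0 : R, y0 ^ 2 = c
  · obtain ⟨y0, rfl⟩ := h
    refine (Set.toFinite {y0, -y0}).subset fun y hy => ?_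
    rcases sq_eq_sq_iff_eq_or_eq_neg.1 hy with h | h
    · exact Or.inl h
    · exact Or.inr h
  · have : {y : R | y ^ 2 = c} = ∅ := by
      ext y
      simp only [Set.mem_ofPred_eq, Set.mem_empty_iff_false, iff_false]
      exact fun hy => h ⟨y, hy⟩
    rw [this]
    exact Set.finite_empty

lemma fib_fin {R : Type} [CommRing R] [NoZeroDivisors R] (f : R → R) {F : Set R} (hF : F.Finite) :
    {q : R × R | q.1 ∈ F ∧ q.2 ^ 2 = f q.1}.Finite := by
  have h : (⋃ x ∈ F, ({x} : Set R) ×ˢ {y : R | y ^ 2 = f x}).Finite :=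
    hF.biUnion fun x _ => (Set.finite_singleton x).prod (sq_fin _)
  refine h.subset fun q hq => ?_
  simp only [Set.mem_iUnion]
  refine ⟨q.1, hq.1, ?_⟩
  exact ⟨rfl, hq.2⟩

lemma rat_fin (a b d : ℤ) (M : ℕ) : (RatPts a b d M).Finite := by
  set B := (d.natAbs + 1) ^ M with hB
  have hF : {x : ℚ | x.num.natAbs ≤ B ∧ x.den ≤ B}.Finite := by
    have h1 : ((Finset.Icc (-(B : ℤ)) B ×ˢ Finset.range (B + 1)).image
      fun p : ℤ × ℕ => (p.1 : ℚ) / p.2 : Set ℚ).Finite := Finset.finite_toSet _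
    refine h1.subset fun x hx => ?_
    rw [Finset.mem_coe, Finset.mem_image]
    refine ⟨(x.num, x.den), ?_, Rat.num_div_den x⟩
    rw [Finset.mem_product, Finset.mem_Icc, Finset.mem_range]
    obtain ⟨h2, h3⟩ := hx
    refine ⟨?_, by omega⟩
    constructor <;> omega
  refine (fib_fin (fun x : ℚ => x * (x - a * d) * (x - b * d)) hF).subset fun q hq => ?_
  exact ⟨hq.2, hq.1⟩

lemma int_fin {a b d : ℤ} (ha : a ≠ 0) (hb : b ≠ 0) (hab : a ≠ b) (hd : d ≠ 0) :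
    (IntPts a b d).Finite := by
  obtain ⟨N, hN⟩ := large_pts
  obtain ⟨q12, q13, q23⟩ := dist ha hb hab hd
  obtain ⟨T, hT⟩ := tors_fin q12 q13 q23
  obtain ⟨g1, g2, g3⟩ := H_bounds a b d hd
  set H := (a.natAbs + b.natAbs + a.natAbs * b.natAbs + 1) * d.natAbs ^ 2 with hH
  have h1 := ncard_le_of (S := {x : ℤ | 2 ^ 14 * (H : ℤ) ^ 10 < |x| ∧
      ∃ y : ℤ, y ^ 2 = x * (x - a * d) * (x - b * d)})
    (n := N * T.card * 2 ^ Module.finrank ℤ (G a b d)) fun s hs =>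
      hN (a * d) (b * d) (mul_ne_zero ha hd) (mul_ne_zero hb hd)
      (fun h => hab (mul_right_cancel₀ hd h)) H g1 g2 g3 _ _ _ (by simp) (by push_cast; ring)
      (by push_cast; ring) T hT s (fun x hx => hs x hx)
  have hF := h1.1.union (Set.finite_Icc (-(2 ^ 14 * (H : ℤ) ^ 10)) (2 ^ 14 * (H : ℤ) ^ 10))
  refine (fib_fin (fun x : ℤ => x * (x - a * d) * (x - b * d)) hF).subset fun q hq => ?_
  refine ⟨?_, hq⟩
  by_cases h : 2 ^ 14 * (H : ℤ) ^ 10 < |q.1|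
  · exact Or.inl ⟨h, q.2, hq⟩
  · exact Or.inr (abs_le.1 (not_lt.1 h))

/-- the bound for one curve -/
theorem curve_all (a b : ℤ) (ha : a ≠ 0) (hb : b ≠ 0) (hab : a ≠ b) (M : ℕ) :
    ∃ K C : ℕ, 1 ≤ K ∧ ∀ d : ℤ, Squarefree d →
      (IntPts a b d).Finite ∧ (RatPts a b d M).Finite ∧
      (IntPts a b d).ncard + (RatPts a b d M).ncard ≤ C * K ^ Module.finrank ℤ (G a b d) := by
  obtain ⟨d0, K, C, h⟩ := curve_large a b ha hb hab M
  refine ⟨K + 1, C + ∑ d ∈ Icc (-(d0 : ℤ)) d0, ((IntPts a b d).ncard + (RatPts a b d M).ncard),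
    by omega, fun d hd => ⟨int_fin ha hb hab hd.ne_zero, rat_fin a b d M, ?_⟩⟩
  rcases le_or_gt d0 d.natAbs with h1 | h1
  · refine (h d hd h1).2.2.trans ?_
    exact Nat.mul_le_mul (by omega) (Nat.pow_le_pow_left (by omega) _)
  · have h2 : (IntPts a b d).ncard + (RatPts a b d M).ncard ≤
        ∑ d ∈ Icc (-(d0 : ℤ)) d0, ((IntPts a b d).ncard + (RatPts a b d M).ncard) :=
      single_le_sum (f := fun d : ℤ => (IntPts a b d).ncard + (RatPts a b d M).ncard)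
        (fun _ _ => Nat.zero_le _) (by
          rw [mem_Icc]
          omega)
    have h3 : 1 ≤ (K + 1) ^ Module.finrank ℤ (G a b d) := Nat.one_le_pow _ _ (by omega)
    nlinarith

lemma rank_eq (a b d : ℤ) (e r : ℚ) (hr : r ≠ 0) (he : e = d * r ^ 2) :
    Module.finrank ℤ (G a b d) = rk (Tw a b e) := by
  rw [rk_scale (a * d) (b * d) a b e r hr (by rw [he]; push_cast; ring)
    (by rw [he]; push_cast; ring)]
  have h : crv ((d : ℚ) * 0) ((d : ℚ) * (-a)) ((d : ℚ) * (-b)) = EAB (a * d) (b * d) := by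
    unfold crv EAB
    ext <;> simp <;> ring
  unfold rk G Pt
  rw [h]

/-- **All the moments of the number of the integral points.** -/
theorem main (a b : ℤ) (ha : a ≠ 0) (hb : b ≠ 0) (hab : a ≠ b) (D : ℚ[X]) (hD : D ≠ 0)
    (k M : ℕ) : ∃ C : ℝ, ∀ d : ℤ → ℤ, (∀ t : ℤ, D.eval (t : ℚ) ≠ 0 → Squarefree (d t) ∧
      ∃ r : ℚ, r ≠ 0 ∧ D.eval (t : ℚ) = d t * r ^ 2) →
    (∀ t : ℤ, D.eval (t : ℚ) ≠ 0 → (IntPts a b (d t)).Finite ∧ (RatPts a b (d t) M).Finite) ∧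
    ∀ X : ℕ, 1 ≤ X → ∑ t ∈ (Icc (-(X : ℤ)) X).filter (fun t : ℤ => D.eval (t : ℚ) ≠ 0),
      (((IntPts a b (d t)).ncard + (RatPts a b (d t) M).ncard : ℕ) : ℝ) ^ k ≤ C * X := by
  obtain ⟨K, C, hK, h⟩ := curve_all a b ha hb hab M
  obtain ⟨C0, hC0, h0⟩ := Pool.Agent.H64.PM.pm_all (K * k) a b (by exact_mod_cast ha)
    (by exact_mod_cast hb) (by exact_mod_cast hab) D hD
  refine ⟨(C : ℝ) ^ k * C0, fun d hd => ⟨fun t ht => ?_, fun X hX => ?_⟩⟩
  · obtain ⟨h1, h2, -⟩ := h (d t) (hd t ht).1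
    exact ⟨h1, h2⟩
  · calc ∑ t ∈ (Icc (-(X : ℤ)) X).filter (fun t : ℤ => D.eval (t : ℚ) ≠ 0),
          (((IntPts a b (d t)).ncard + (RatPts a b (d t) M).ncard : ℕ) : ℝ) ^ k
        ≤ ∑ t ∈ (Icc (-(X : ℤ)) X).filter (fun t : ℤ => D.eval (t : ℚ) ≠ 0),
          (C : ℝ) ^ k * ((2 : ℝ) ^ rk (Tw a b (D.eval (t : ℚ)))) ^ (K * k) := by
          refine sum_le_sum fun t ht => ?_
          rw [mem_filter] at ht
          obtain ⟨h1, r, hr, h2⟩ := hd t ht.2
          have h3 := (h (d t) h1).2.2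
          rw [rank_eq a b (d t) _ r hr h2] at h3
          set R := rk (Tw a b (D.eval (t : ℚ))) with hR
          have h4 : (((IntPts a b (d t)).ncard + (RatPts a b (d t) M).ncard : ℕ) : ℝ) ≤
              (C : ℝ) * (K : ℝ) ^ R := by exact_mod_cast h3
          have h5 : (K : ℝ) ≤ 2 ^ K := by
            have : K ≤ 2 ^ K := Nat.lt_two_pow_self.le
            exact_mod_cast this
          have h6 : (K : ℝ) ^ R ≤ ((2 : ℝ) ^ R) ^ K := by
            rw [← pow_mul, mul_comm R K, pow_mul]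
            exact pow_le_pow_left₀ (Nat.cast_nonneg _) h5 _
          calc _ ≤ ((C : ℝ) * ((2 : ℝ) ^ R) ^ K) ^ k := by
                refine pow_le_pow_left₀ (Nat.cast_nonneg _) ?_ _
                exact h4.trans (mul_le_mul_of_nonneg_left h6 (Nat.cast_nonneg _))
            _ = _ := by rw [mul_pow, ← pow_mul ((2 : ℝ) ^ R)]
      _ = (C : ℝ) ^ k * ∑ t ∈ (Icc (-(X : ℤ)) X).filter (fun t : ℤ => D.eval (t : ℚ) ≠ 0),
          ((2 : ℝ) ^ rk (Tw a b (D.eval (t : ℚ)))) ^ (K * k) := by rw [mul_sum]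
      _ ≤ (C : ℝ) ^ k * (C0 * X) := mul_le_mul_of_nonneg_left (h0 X hX) (by positivity)
      _ = _ := by ring

end Pool.Agent.H64.IP
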